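import Pool.Agent.H699Z.Sierp.Main

namespace Pool.Agent.Results.MP_ed4d4f_gt.NoSierpinskiProductive

open Pool.Agent.H699Z.Sierp

/-- Under CH, for every Sierpinski set `S` there is a Sierpinski set of reals `Y`, a Hurewicz
space, such that `S × Y` is neither Menger nor Hurewicz. -/
theorem result (hCH : Cardinal.continuum.{0} = Cardinal.aleph 1) (S : Set ℝ)
    (hS : IsSierpinski S) :
    ∃ Y : Set ℝ, IsSierpinski Y ∧ IsHurewicz Y ∧ ¬ IsMenger (S × Y) ∧ ¬ IsHurewicz (S × Y) := by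
  obtain ⟨Y, hY, hM⟩ := main hCH hS
  exact ⟨Y, hY, hurewicz_of_null hY.2, hM, fun h => hM h.isMenger⟩

end Pool.Agent.Results.MP_ed4d4f_gt.NoSierpinskiProductive
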